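import Pool.Agent.helper82.LEQ.Spec

/-!
# LEQ row XR: chains through an element
-/

set_option autoImplicit false

namespace LEQ

open scoped BigOperators
open QS (Lef EAb)

open Classical in
/-- the chain made of a lower part, `a` and an upper part -/
theorem XR_chain {α : Type} [PartialOrder α] (P : α → Prop) (a : α) (ha : P a)
    (s t : Finset α) (hs : IsChain (· ≤ ·) (s : Set α)) (ht : IsChain (· ≤ ·) (t : Set α))
    (hs' : ∀ x ∈ s, P x ∧ x < a) (ht' : ∀ x ∈ t, P x ∧ a < x) :
    IsChain (· ≤ ·) ((insert a (s ∪ t) : Finset α) : Set α) ∧ ∀ x ∈ insert a (s ∪ t), P x := by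
  constructor
  · intro x hx y hy hxy
    rw [Finset.mem_coe, Finset.mem_insert, Finset.mem_union] at hx hy
    rcases hx with rfl | hx | hx <;> rcases hy with rfl | hy | hy
    · exact absurd rfl hxy
    · exact Or.inr (hs' y hy).2.le
    · exact Or.inl (ht' y hy).2.le
    · exact Or.inl (hs' x hx).2.le
    · exact hs (Finset.mem_coe.2 hx) (Finset.mem_coe.2 hy) hxy
    · exact Or.inl ((hs' x hx).2.trans (ht' y hy).2).le
    · exact Or.inr (ht' x hx).2.le
    · exact Or.inr ((hs' y hy).2.trans (ht' x hx).2).le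
    · exact ht (Finset.mem_coe.2 hx) (Finset.mem_coe.2 hy) hxy
  · intro x hx
    rw [Finset.mem_insert, Finset.mem_union] at hx
    rcases hx with rfl | hx | hx
    · exact ha
    · exact (hs' x hx).1
    · exact (ht' x hx).1

open Classical in
/-- a chain through `a` is recovered from its two parts -/
theorem XR_rec {α : Type} [PartialOrder α] (a : α) (s : Finset α)
    (hs : IsChain (· ≤ ·) (s : Set α)) (ha : a ∈ s) :
    insert a (s.filter (fun y => y < a) ∪ s.filter (fun y => a < y)) = s := by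
  ext x
  rw [Finset.mem_insert, Finset.mem_union, Finset.mem_filter, Finset.mem_filter]
  constructor
  · rintro (rfl | h | h)
    · exact ha
    · exact h.1
    · exact h.1
  · intro hx
    by_cases hxa : x = a
    · exact Or.inl hxa
    · right
      rcases hs (Finset.mem_coe.2 hx) (Finset.mem_coe.2 ha) hxa with h | h
      · exact Or.inl ⟨hx, lt_of_le_of_ne h hxa⟩
      · exact Or.inr ⟨hx, lt_of_le_of_ne h (Ne.symm hxa)⟩

open Classical in
theorem XR_lo {α : Type} [PartialOrder α] (a : α) (s t : Finset α)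
    (hs : ∀ x ∈ s, x < a) (ht : ∀ x ∈ t, a < x) :
    (insert a (s ∪ t)).filter (fun y => y < a) = s := by
  ext x
  rw [Finset.mem_filter, Finset.mem_insert, Finset.mem_union]
  constructor
  · rintro ⟨rfl | h | h, h2⟩
    · exact absurd h2 (lt_irrefl _)
    · exact h
    · exact absurd (h2.trans (ht x h)) (lt_irrefl _)
  · intro hx
    exact ⟨Or.inr (Or.inl hx), hs x hx⟩

open Classical in
theorem XR_hi {α : Type} [PartialOrder α] (a : α) (s t : Finset α)
    (hs : ∀ x ∈ s, x < a) (ht : ∀ x ∈ t, a < x) :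
    (insert a (s ∪ t)).filter (fun y => a < y) = t := by
  ext x
  rw [Finset.mem_filter, Finset.mem_insert, Finset.mem_union]
  constructor
  · rintro ⟨rfl | h | h, h2⟩
    · exact absurd h2 (lt_irrefl _)
    · exact absurd (h2.trans (hs x h)) (lt_irrefl _)
    · exact h
  · intro hx
    exact ⟨Or.inr (Or.inr hx), ht x hx⟩

open Classical in
theorem XR_card {α : Type} [PartialOrder α] (a : α) (s t : Finset α)
    (hs : ∀ x ∈ s, x < a) (ht : ∀ x ∈ t, a < x) :
    (insert a (s ∪ t)).card = s.card + t.card + 1 := by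
  rw [Finset.card_insert_of_notMem, Finset.card_union_of_disjoint]
  · rw [Finset.disjoint_left]
    intro x hx hx'
    exact absurd ((hs x hx).trans (ht x hx')) (lt_irrefl _)
  · intro h
    rw [Finset.mem_union] at h
    rcases h with h | h
    · exact absurd (hs a h) (lt_irrefl _)
    · exact absurd (ht a h) (lt_irrefl _)

open Classical in
/-- **XR**. -/
theorem XR : XR_stmt := by
  intro α _ _ P a ha
  have h1 : XS P =
      ∑ s ∈ (FS (fun s : Finset α => IsChain (· ≤ ·) (s : Set α) ∧ ∀ x ∈ s, P x)).filter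
        (fun s => a ∈ s), (-1 : ℤ) ^ (s.card + 1) +
      ∑ s ∈ (FS (fun s : Finset α => IsChain (· ≤ ·) (s : Set α) ∧ ∀ x ∈ s, P x)).filter
        (fun s => ¬ a ∈ s), (-1 : ℤ) ^ (s.card + 1) := by
    rw [Finset.sum_filter_add_sum_filter_not]
    rfl
  rw [h1, add_comm]
  congr 1
  · unfold XS
    refine Finset.sum_congr ?_ (fun _ _ => rfl)
    ext s
    rw [Finset.mem_filter, mem_FS, mem_FS]
    constructor
    · rintro ⟨⟨h2, h3⟩, h4⟩
      exact ⟨h2, fun x hx => ⟨h3 x hx, fun hxa => h4 (hxa ▸ hx)⟩⟩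
    · rintro ⟨h2, h3⟩
      exact ⟨⟨h2, fun x hx => (h3 x hx).1⟩, fun h4 => (h3 a h4).2 rfl⟩
  · unfold XS
    rw [Finset.sum_mul_sum, ← Finset.sum_product']
    refine Finset.sum_nbij' (fun s => (s.filter (fun y => y < a), s.filter (fun y => a < y)))
      (fun p => insert a (p.1 ∪ p.2)) ?_ ?_ ?_ ?_ ?_
    · intro s hs
      rw [Finset.mem_filter, mem_FS] at hs
      rw [Finset.mem_product, mem_FS, mem_FS]
      refine ⟨⟨hs.1.1.mono ?_, fun x hx => ?_⟩, ⟨hs.1.1.mono ?_, fun x hx => ?_⟩⟩
      · exact Finset.coe_subset.2 (Finset.filter_subset _ _)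
      · rw [Finset.mem_filter] at hx
        exact ⟨hs.1.2 x hx.1, hx.2⟩
      · exact Finset.coe_subset.2 (Finset.filter_subset _ _)
      · rw [Finset.mem_filter] at hx
        exact ⟨hs.1.2 x hx.1, hx.2⟩
    · intro p hp
      rw [Finset.mem_product, mem_FS, mem_FS] at hp
      rw [Finset.mem_filter, mem_FS]
      exact ⟨XR_chain P a ha p.1 p.2 hp.1.1 hp.2.1 hp.1.2 hp.2.2, Finset.mem_insert_self _ _⟩
    · intro s hs
      rw [Finset.mem_filter, mem_FS] at hs
      exact XR_rec a s hs.1.1 hs.2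
    · intro p hp
      rw [Finset.mem_product, mem_FS, mem_FS] at hp
      exact Prod.ext (XR_lo a p.1 p.2 (fun x hx => (hp.1.2 x hx).2) (fun x hx => (hp.2.2 x hx).2))
        (XR_hi a p.1 p.2 (fun x hx => (hp.1.2 x hx).2) (fun x hx => (hp.2.2 x hx).2))
    · intro s hs
      rw [Finset.mem_filter, mem_FS] at hs
      have h2 := XR_card a (s.filter (fun y => y < a)) (s.filter (fun y => a < y))
        (fun x hx => (Finset.mem_filter.1 hx).2) (fun x hx => (Finset.mem_filter.1 hx).2)
      rw [XR_rec a s hs.1.1 hs.2] at h2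
      show (-1 : ℤ) ^ (s.card + 1) = (-1 : ℤ) ^ ((s.filter (fun y => y < a)).card + 1) *
        (-1 : ℤ) ^ ((s.filter (fun y => a < y)).card + 1)
      rw [← pow_add, h2]
      congr 1
      ring

end LEQ
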